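import Pool.Agent.Lib.MP_fa837f_gt.P2.Iface

/-!
Project P2, row L1: the mollified equation.
-/

set_option autoImplicit false

open MeasureTheory Set Filter Topology

namespace Pool.Agent.Lib.MP_fa837f_gt.P2.H96

section Swap

variable {ι : Type} [Fintype ι]

theorem swap_int (G a v : (ι → ℝ) → ℝ) (ε : ℝ) (hG : Integrable G) (ha : Continuous a)
    (hac : HasCompactSupport a) (hv : Continuous v) (hvc : HasCompactSupport v) :
    (∫ x, (∫ w, G (x - ε • w) * a w) * v x = ∫ z, G z * ∫ w, a w * v (z + ε • w)) ∧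
    Integrable (fun x => (∫ w, G (x - ε • w) * a w) * v x) ∧
    Integrable (fun z => G z * ∫ w, a w * v (z + ε • w)) := by
  have hai : Integrable a := ha.integrable_of_hasCompactSupport hac
  obtain ⟨B, hB⟩ := hv.bounded_above_of_compact_support hvc
  -- the function on the product, first variable `w`, second variable `z`
  set F : (ι → ℝ) × (ι → ℝ) → ℝ := fun p => a p.1 * G p.2 * v (p.2 + ε • p.1) with hF
  have hFi : Integrable F (volume.prod volume) := by
    have h1 : Integrable (fun p : (ι → ℝ) × (ι → ℝ) => a p.1 * G p.2) (volume.prod volume) :=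
      hai.mul_prod hG
    refine h1.mul_bdd (c := B) ?_ ?_
    · apply Continuous.aestronglyMeasurable
      exact hv.comp (continuous_snd.add (continuous_fst.const_smul ε))
    · exact Filter.Eventually.of_forall fun p => hB _
  -- the shear
  have hsh : MeasurePreserving (fun p : (ι → ℝ) × (ι → ℝ) => (p.1, p.2 - ε • p.1))
      (volume.prod volume) (volume.prod volume) := by
    refine MeasurePreserving.skew_product (f := fun w : ι → ℝ => w)
      (g := fun (w x : ι → ℝ) => x - ε • w) (MeasurePreserving.id _) ?_ ?_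
    · apply Continuous.measurable
      exact continuous_snd.sub (continuous_fst.const_smul ε)
    · refine Filter.Eventually.of_forall fun w => ?_
      exact (measurePreserving_sub_right volume (ε • w)).map_eq
  have hFs : Integrable (fun p : (ι → ℝ) × (ι → ℝ) => a p.1 * G (p.2 - ε • p.1) * v p.2)
      (volume.prod volume) := by
    have h1 := hsh.integrable_comp_of_integrable hFi
    refine h1.congr (Filter.Eventually.of_forall fun p => ?_)
    simp only [Function.comp_apply, hF, sub_add_cancel]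
  have hFs' : Integrable (fun p : (ι → ℝ) × (ι → ℝ) => a p.2 * G (p.1 - ε • p.2) * v p.1)
      (volume.prod volume) := hFs.swap
  have hFi' : Integrable (fun p : (ι → ℝ) × (ι → ℝ) => a p.2 * G p.1 * v (p.1 + ε • p.2))
      (volume.prod volume) := hFi.swap
  have e1 : ∀ x : ι → ℝ, (∫ w, a w * G (x - ε • w) * v x) = (∫ w, G (x - ε • w) * a w) * v x := by
    intro x
    rw [← integral_mul_const]
    congr 1
    funext w
    ring
  have e2 : ∀ z : ι → ℝ, (∫ w, a w * G z * v (z + ε • w)) = G z * ∫ w, a w * v (z + ε • w) := by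
    intro z
    rw [← integral_const_mul]
    congr 1
    funext w
    ring
  refine ⟨?_, ?_, ?_⟩
  · calc ∫ x, (∫ w, G (x - ε • w) * a w) * v x
        = ∫ x, ∫ w, a w * G (x - ε • w) * v x := by
          congr 1; funext x; exact (e1 x).symm
      _ = ∫ w, ∫ x, a w * G (x - ε • w) * v x := integral_integral_swap hFs'
      _ = ∫ w, ∫ z, a w * G z * v (z + ε • w) := by
          congr 1
          funext w
          have h1 := integral_sub_right_eq_self (μ := volume)
            (fun z : ι → ℝ => a w * G z * v (z + ε • w)) (ε • w)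
          rw [← h1]
          congr 1
          funext x
          rw [sub_add_cancel]
      _ = ∫ z, ∫ w, a w * G z * v (z + ε • w) := (integral_integral_swap hFi').symm
      _ = ∫ z, G z * ∫ w, a w * v (z + ε • w) := by
          congr 1; funext z; exact e2 z
  · have h1 := hFs'.integral_prod_left
    refine h1.congr (Filter.Eventually.of_forall fun x => ?_)
    exact e1 x
  · have h1 := hFi'.integral_prod_left
    refine h1.congr (Filter.Eventually.of_forall fun z => ?_)
    exact e2 z

end Swap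

section Psi

set_option linter.unusedSectionVars false

variable {ι : Type} [Fintype ι] [DecidableEq ι]

/-- The mollified function. -/
noncomputable def Psi (φ : (ι → ℝ) → ℝ) (ε : ℝ) (v : (ι → ℝ) → ℝ) (z : ι → ℝ) : ℝ :=
  ∫ w, φ w * v (z + ε • w)

theorem comp_smul_cs (v : (ι → ℝ) → ℝ) (hvc : HasCompactSupport v) (ε : ℝ) (hε : ε ≠ 0) :
    HasCompactSupport fun z => v (ε • z) :=
  hvc.comp_homeomorph (Homeomorph.smulOfNeZero ε hε)

theorem psi_conv (φ v : (ι → ℝ) → ℝ) (ε : ℝ) (hε : ε ≠ 0) (z : ι → ℝ) :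
    Psi φ ε v z = (MeasureTheory.convolution (fun t => φ (-t)) (fun t => v (ε • t))
      (ContinuousLinearMap.mul ℝ ℝ) volume) (ε⁻¹ • z) := by
  rw [convolution_def]
  simp only [ContinuousLinearMap.mul_apply']
  rw [← integral_neg_eq_self]
  rw [Psi]
  congr 1
  funext w
  rw [neg_neg, sub_neg_eq_add, smul_add, smul_smul, mul_inv_cancel₀ hε, one_smul]

theorem tst_pd (v : (ι → ℝ) → ℝ) (hv : Tst v) (q : ι) : Tst (pd q v) := by
  refine ⟨?_, ?_⟩
  · have h1 := hv.1.fderiv_right (m := (⊤ : ℕ∞)) (by norm_cast)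
    exact h1.clm_apply contDiff_const
  · exact (hv.2.fderiv_apply (𝕜 := ℝ) (Pi.single q 1))

theorem psi_smooth (φ v : (ι → ℝ) → ℝ) (hφ : Continuous φ) (hv : Tst v) (ε : ℝ) (hε : ε ≠ 0) :
    ContDiff ℝ (⊤ : ℕ∞) (Psi φ ε v) ∧ ∀ q z, pd q (Psi φ ε v) z = Psi φ ε (pd q v) z := by
  have hloc : LocallyIntegrable (fun t : ι → ℝ => φ (-t)) volume :=
    (hφ.comp continuous_neg).locallyIntegrable
  have hvs : ContDiff ℝ (⊤ : ℕ∞) fun t : ι → ℝ => v (ε • t) :=
    hv.1.comp (contDiff_const_smul ε)
  have hvc := comp_smul_cs v hv.2 ε hε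
  have hfun : Psi φ ε v = fun z => (MeasureTheory.convolution (fun t => φ (-t))
      (fun t => v (ε • t)) (ContinuousLinearMap.mul ℝ ℝ) volume) (ε⁻¹ • z) := by
    funext z
    exact psi_conv φ v ε hε z
  refine ⟨?_, ?_⟩
  · rw [hfun]
    have h1 := hvc.contDiff_convolution_right (ContinuousLinearMap.mul ℝ ℝ) (μ := volume)
      (n := (⊤ : ℕ∞)) hloc hvs
    exact h1.comp (contDiff_const_smul ε⁻¹)
  · intro q z
    have h1 := hvc.hasFDerivAt_convolution_right (ContinuousLinearMap.mul ℝ ℝ) (μ := volume)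
      hloc (hvs.of_le (by norm_cast)) (ε⁻¹ • z)
    have h2 : HasFDerivAt (fun z : ι → ℝ => ε⁻¹ • z)
        (ε⁻¹ • ContinuousLinearMap.id ℝ (ι → ℝ)) z :=
      (hasFDerivAt_id z).const_smul ε⁻¹
    have h3 := h1.comp z h2
    have h4 : pd q (Psi φ ε v) z = ε⁻¹ * (MeasureTheory.convolution (fun t => φ (-t))
        (fun t => fderiv ℝ (fun t : ι → ℝ => v (ε • t)) t (Pi.single q 1))
        (ContinuousLinearMap.mul ℝ ℝ) volume) (ε⁻¹ • z) := by
      rw [pd, hfun]
      have h5 := h3.fderiv
      rw [show (fun z : ι → ℝ => (MeasureTheory.convolution (fun t => φ (-t))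
        (fun t => v (ε • t)) (ContinuousLinearMap.mul ℝ ℝ) volume) (ε⁻¹ • z)) =
        (MeasureTheory.convolution (fun t => φ (-t))
        (fun t => v (ε • t)) (ContinuousLinearMap.mul ℝ ℝ) volume) ∘ fun z : ι → ℝ => ε⁻¹ • z
        from rfl, h5]
      rw [ContinuousLinearMap.comp_apply, _root_.smul_apply,
        ContinuousLinearMap.id_apply, map_smul, smul_eq_mul]
      congr 1
      exact convolution_precompR_apply (ContinuousLinearMap.mul ℝ ℝ) hloc (hvc.fderiv ℝ)
        (hvs.continuous_fderiv (by simp)) _ _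
    rw [h4, psi_conv φ (pd q v) ε hε z]
    have h6 : (fun t : ι → ℝ => fderiv ℝ (fun t : ι → ℝ => v (ε • t)) t (Pi.single q 1)) =
        ε • fun t : ι → ℝ => pd q v (ε • t) := by
      funext t
      have h7 : HasFDerivAt (fun t : ι → ℝ => ε • t)
          (ε • ContinuousLinearMap.id ℝ (ι → ℝ)) t := (hasFDerivAt_id t).const_smul ε
      have h8 := ((hv.1.differentiable (by simp)) (ε • t)).hasFDerivAt.comp t h7
      rw [show (fun t : ι → ℝ => v (ε • t)) = v ∘ fun t : ι → ℝ => ε • t from rfl, h8.fderiv]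
      rw [ContinuousLinearMap.comp_apply, _root_.smul_apply,
        ContinuousLinearMap.id_apply, map_smul]
      rfl
    rw [h6, convolution_smul, Pi.smul_apply, smul_eq_mul, ← mul_assoc, inv_mul_cancel₀ hε, one_mul]

theorem psi_parts (φ v : (ι → ℝ) → ℝ) (hφ : Tst φ) (hv : Tst v) (ε : ℝ) (hε : ε ≠ 0) (p : ι)
    (z : ι → ℝ) : Psi φ ε (pd p v) z = -(ε⁻¹ * ∫ w, pd p φ w * v (z + ε • w)) := by
  have hg : ∀ w : ι → ℝ, HasFDerivAt (fun w : ι → ℝ => v (z + ε • w))
      ((fderiv ℝ v (z + ε • w)).comp (ε • ContinuousLinearMap.id ℝ (ι → ℝ))) w := by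
    intro w
    have h7 : HasFDerivAt (fun w : ι → ℝ => z + ε • w)
        (ε • ContinuousLinearMap.id ℝ (ι → ℝ)) w := ((hasFDerivAt_id w).const_smul ε).const_add z
    exact ((hv.1.differentiable (by simp)) (z + ε • w)).hasFDerivAt.comp w h7
  have hga : ∀ w : ι → ℝ, fderiv ℝ (fun w : ι → ℝ => v (z + ε • w)) w (Pi.single p 1) =
      ε * pd p v (z + ε • w) := by
    intro w
    rw [(hg w).fderiv, ContinuousLinearMap.comp_apply, _root_.smul_apply,
      ContinuousLinearMap.id_apply, map_smul]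
    rfl
  have hφc := hφ.1.continuous
  have hvz : Continuous fun w : ι → ℝ => v (z + ε • w) :=
    hv.1.continuous.comp (continuous_const.add (continuous_const_smul ε))
  have hpv : Continuous fun w : ι → ℝ => pd p v (z + ε • w) :=
    (tst_pd v hv p).1.continuous.comp (continuous_const.add (continuous_const_smul ε))
  have h1 := integral_mul_fderiv_eq_neg_fderiv_mul_of_integrable (μ := (volume : Measure (ι → ℝ)))
    (f := φ) (g := fun w : ι → ℝ => v (z + ε • w)) (v := Pi.single p 1) ?_ ?_ ?_ ?_ ?_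
  · have h2 : (∫ w, φ w * fderiv ℝ (fun w : ι → ℝ => v (z + ε • w)) w (Pi.single p 1)) =
        ε * Psi φ ε (pd p v) z := by
      rw [Psi, ← integral_const_mul]
      congr 1
      funext w
      rw [hga]
      ring
    rw [h2] at h1
    have h3 : Psi φ ε (pd p v) z = ε⁻¹ * (ε * Psi φ ε (pd p v) z) := by
      rw [← mul_assoc, inv_mul_cancel₀ hε, one_mul]
    rw [h3, h1, mul_neg]
    rfl
  · apply Continuous.integrable_of_hasCompactSupport
    · exact (tst_pd φ hφ p).1.continuous.mul hvz
    · exact (tst_pd φ hφ p).2.mul_right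
  · simp only [hga]
    apply Continuous.integrable_of_hasCompactSupport
    · exact hφc.mul (continuous_const.mul hpv)
    · exact hφ.2.mul_right
  · apply Continuous.integrable_of_hasCompactSupport
    · exact hφc.mul hvz
    · exact hφ.2.mul_right
  · intro w _
    exact (hφ.1.differentiable (by simp)) w
  · intro w _
    exact (hg w).differentiableAt

theorem int_g (g : (ι → ℝ) → ℝ) (hg : L2c g) : Integrable g := by
  obtain ⟨T, hT⟩ := hg.supp
  have h1 : Integrable (Set.indicator (Metric.closedBall (0 : ι → ℝ) T) fun _ => (1 : ℝ)) := by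
    apply IntegrableOn.integrable_indicator _ Metric.isClosed_closedBall.measurableSet
    exact integrableOn_const (isCompact_closedBall _ _).measure_lt_top.ne
  refine (h1.add hg.sq).mono' hg.meas (Filter.Eventually.of_forall fun x => ?_)
  rw [Pi.add_apply, Real.norm_eq_abs]
  by_cases hx : T < ‖x‖
  · rw [hT x hx]
    simp only [abs_zero, ne_eq, OfNat.ofNat_ne_zero, not_false_eq_true, zero_pow, add_zero]
    exact Set.indicator_nonneg (fun _ _ => zero_le_one) x
  · have hx' : x ∈ Metric.closedBall (0 : ι → ℝ) T := by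
      rw [mem_closedBall_zero_iff]
      exact not_lt.mp hx
    rw [Set.indicator_of_mem hx']
    have h2 := sq_abs (g x)
    nlinarith [sq_nonneg (|g x| - 1), abs_nonneg (g x)]

theorem int_mul (g K : (ι → ℝ) → ℝ) (hg : L2c g) (hK : Continuous K) :
    Integrable fun x => g x * K x := by
  obtain ⟨T, hT⟩ := hg.supp
  obtain ⟨B, hB⟩ := (isCompact_closedBall (0 : ι → ℝ) T).exists_bound_of_continuousOn
    hK.continuousOn
  have h1 := int_g g hg
  refine (h1.norm.const_mul B).mono' (hg.meas.mul hK.aestronglyMeasurable)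
    (Filter.Eventually.of_forall fun x => ?_)
  rw [norm_mul]
  by_cases hx : T < ‖x‖
  · rw [hT x hx]
    simp
  · have hx' : x ∈ Metric.closedBall (0 : ι → ℝ) T := by
      rw [mem_closedBall_zero_iff]
      exact not_lt.mp hx
    rw [mul_comm]
    exact mul_le_mul_of_nonneg_right (hB x hx') (norm_nonneg _)

theorem psi_zero (φ u : (ι → ℝ) → ℝ) (hφ : ∀ x, 1 < ‖x‖ → φ x = 0) (T ε : ℝ) (hε : 0 < ε)
    (hε1 : ε ≤ 1) (hu : ∀ x, T < ‖x‖ → u x = 0) (x : ι → ℝ) (hx : T + 1 < ‖x‖) :
    Psi φ ε u x = 0 := by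
  have h1 : (fun w => φ w * u (x + ε • w)) = fun _ => (0 : ℝ) := by
    funext w
    by_cases hw : 1 < ‖w‖
    · rw [hφ w hw, zero_mul]
    · rw [hu, mul_zero]
      have h2 : ‖x‖ ≤ ‖x + ε • w‖ + ‖ε • w‖ := by
        have := norm_sub_le (x + ε • w) (ε • w)
        rwa [add_sub_cancel_right] at this
      have h3 : ‖ε • w‖ ≤ 1 := by
        rw [norm_smul, Real.norm_eq_abs, abs_of_pos hε]
        have := not_lt.mp hw
        nlinarith [norm_nonneg w]
      linarith
  rw [Psi, h1, integral_zero]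

theorem pd_mul (f h : (ι → ℝ) → ℝ) (x : ι → ℝ) (p : ι) (hf : DifferentiableAt ℝ f x)
    (hh : DifferentiableAt ℝ h x) :
    pd p (fun z => f z * h z) x = pd p f x * h x + f x * pd p h x := by
  have h1 := hf.hasFDerivAt.mul hh.hasFDerivAt
  have h2 : fderiv ℝ (fun z => f z * h z) x = f x • fderiv ℝ h x + h x • fderiv ℝ f x := h1.fderiv
  rw [pd, h2]
  change f x * (fderiv ℝ h x) (Pi.single p 1) + h x * (fderiv ℝ f x) (Pi.single p 1) =
    (fderiv ℝ f x) (Pi.single p 1) * h x + f x * (fderiv ℝ h x) (Pi.single p 1)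
  ring

theorem pd_sum (f : ι → (ι → ℝ) → ℝ) (x : ι → ℝ) (p : ι) (hf : ∀ q, DifferentiableAt ℝ (f q) x) :
    pd p (fun z => ∑ q, f q z) x = ∑ q, pd p (f q) x := by
  have h1 : HasFDerivAt (fun z => ∑ q, f q z) (∑ q, fderiv ℝ (f q) x) x :=
    HasFDerivAt.fun_sum fun q _ => (hf q).hasFDerivAt
  rw [pd, h1.fderiv]
  simp only [pd, FunLike.coe_sum, Finset.sum_apply]

end Psi

/-- Row L1. -/
theorem l1 : L1Statement := by
  intro ι _ _ φ g C T hφ hg hC H ε hε hε1 u hu hus
  have hφt : Tst φ := ⟨hφ.smooth, HasCompactSupport.intro (isCompact_closedBall (0 : ι → ℝ) 1)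
    (fun x hx => hφ.supp x (by
      rw [mem_closedBall_zero_iff, not_le] at hx
      exact hx))⟩
  have hψs := psi_smooth φ u hφ.smooth.continuous hu ε hε.ne'
  have hψT : ∀ x, T + 1 < ‖x‖ → Psi φ ε u x = 0 :=
    psi_zero φ u hφ.supp T ε hε hε1 hus
  have hψt : Tst (Psi φ ε u) := ⟨hψs.1, HasCompactSupport.intro
    (isCompact_closedBall (0 : ι → ℝ) (T + 1)) (fun x hx => hψT x (by
      rw [mem_closedBall_zero_iff, not_le] at hx
      exact hx))⟩
  have hH := H (Psi φ ε u) hψt hψT
  -- second derivatives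
  have hpq : ∀ p q x, pd p (pd q (Psi φ ε u)) x =
      -(ε⁻¹ * ∫ w, pd p φ w * pd q u (x + ε • w)) := by
    intro p q x
    have h1 : pd q (Psi φ ε u) = Psi φ ε (pd q u) := by
      funext z
      exact hψs.2 q z
    rw [h1, (psi_smooth φ (pd q u) hφ.smooth.continuous (tst_pd u hu q) ε hε.ne').2 p x]
    exact psi_parts φ (pd q u) hφt (tst_pd u hu q) ε hε.ne' p x
  have hCc : ∀ p q, Continuous fun x => C x p q := fun p q => (hC p q).continuous
  have hCd : ∀ p q, Continuous fun x => pd p (fun z => C z p q) x := by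
    intro p q
    have h1 := (hC p q).continuous_fderiv (by simp)
    exact h1.clm_apply continuous_const
  have hdiv : ∀ p x, pd p (fun z => ∑ q, C z p q * pd q (Psi φ ε u) z) x =
      ∑ q, (pd p (fun z => C z p q) x * Psi φ ε (pd q u) x -
        ε⁻¹ * (C x p q * ∫ w, pd p φ w * pd q u (x + ε • w))) := by
    intro p x
    have hd : ∀ q, DifferentiableAt ℝ (fun z => C z p q) x := fun q =>
      ((hC p q).differentiable (by simp)) x
    have hd' : ∀ q, DifferentiableAt ℝ (fun z => pd q (Psi φ ε u) z) x := fun q =>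
      ((tst_pd _ hψt q).1.differentiable (by simp)) x
    rw [pd_sum (fun q z => C z p q * pd q (Psi φ ε u) z) x p (fun q => (hd q).mul (hd' q))]
    apply Finset.sum_congr rfl
    intro q _
    rw [pd_mul _ _ x p (hd q) (hd' q), hψs.2 q x]
    have h1 : pd p (fun z => pd q (Psi φ ε u) z) x =
      -(ε⁻¹ * ∫ w, pd p φ w * pd q u (x + ε • w)) := hpq p q x
    rw [h1]
    ring
  have hpu : ∀ q, Continuous (pd q u) := fun q => (tst_pd u hu q).1.continuous
  have hpuc : ∀ q, HasCompactSupport (pd q u) := fun q => (tst_pd u hu q).2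
  have hsw1 := fun p q => swap_int (fun x => g x * pd p (fun z => C z p q) x) φ (pd q u) ε
    (int_mul g _ hg (hCd p q)) hφ.smooth.continuous hφt.2 (hpu q) (hpuc q)
  have hsw2 := fun p q => swap_int (fun x => g x * C x p q) (pd p φ) (pd q u) ε
    (int_mul g _ hg (hCc p q)) (tst_pd φ hφt p).1.continuous (tst_pd φ hφt p).2 (hpu q) (hpuc q)
  -- the equation
  have e1 : (∫ x, g x * ∑ p, pd p (fun z => ∑ q, C z p q * pd q (Psi φ ε u) z) x) =
      ∑ p, ∑ q, ((∫ x, (g x * pd p (fun z => C z p q) x) * ∫ w, φ w * pd q u (x + ε • w)) -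
        ε⁻¹ * ∫ x, (g x * C x p q) * ∫ w, pd p φ w * pd q u (x + ε • w)) := by
    have h1 : (fun x => g x * ∑ p, pd p (fun z => ∑ q, C z p q * pd q (Psi φ ε u) z) x) =
        fun x => ∑ p, ∑ q, (((g x * pd p (fun z => C z p q) x) *
          ∫ w, φ w * pd q u (x + ε • w)) -
          ε⁻¹ * ((g x * C x p q) * ∫ w, pd p φ w * pd q u (x + ε • w))) := by
      funext x
      rw [Finset.mul_sum]
      apply Finset.sum_congr rfl
      intro p _
      rw [hdiv, Finset.mul_sum]
      apply Finset.sum_congr rfl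
      intro q _
      rw [Psi]
      ring
    have hI : ∀ p q, Integrable fun x => (((g x * pd p (fun z => C z p q) x) *
          ∫ w, φ w * pd q u (x + ε • w)) -
          ε⁻¹ * ((g x * C x p q) * ∫ w, pd p φ w * pd q u (x + ε • w))) := fun p q =>
      (hsw1 p q).2.2.sub ((hsw2 p q).2.2.const_mul ε⁻¹)
    rw [h1, integral_finsetSum _ (fun p _ => integrable_finsetSum _ (fun q _ => hI p q))]
    apply Finset.sum_congr rfl
    intro p _
    rw [integral_finsetSum _ (fun q _ => hI p q)]
    apply Finset.sum_congr rfl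
    intro q _
    rw [integral_sub (hsw1 p q).2.2 ((hsw2 p q).2.2.const_mul ε⁻¹), integral_const_mul]
  have e2 : (∫ x, ∑ q, Th C φ g ε q x * pd q u x) =
      ∑ q, ∑ p, (ε⁻¹ * (∫ x, (∫ w, (g (x - ε • w) * C (x - ε • w) p q) * pd p φ w) * pd q u x) -
        ∫ x, (∫ w, (g (x - ε • w) * pd p (fun z => C z p q) (x - ε • w)) * φ w) * pd q u x) := by
    have h1 : (fun x => ∑ q, Th C φ g ε q x * pd q u x) = fun x => ∑ q, ∑ p,
        (ε⁻¹ * ((∫ w, (g (x - ε • w) * C (x - ε • w) p q) * pd p φ w) * pd q u x) -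
        (∫ w, (g (x - ε • w) * pd p (fun z => C z p q) (x - ε • w)) * φ w) * pd q u x) := by
      funext x
      apply Finset.sum_congr rfl
      intro q _
      rw [Th, Finset.sum_mul]
      apply Finset.sum_congr rfl
      intro p _
      ring
    have hI : ∀ p q, Integrable fun x =>
        (ε⁻¹ * ((∫ w, (g (x - ε • w) * C (x - ε • w) p q) * pd p φ w) * pd q u x) -
        (∫ w, (g (x - ε • w) * pd p (fun z => C z p q) (x - ε • w)) * φ w) * pd q u x) :=
      fun p q => ((hsw2 p q).2.1.const_mul ε⁻¹).sub (hsw1 p q).2.1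
    rw [h1, integral_finsetSum _ (fun q _ => integrable_finsetSum _ (fun p _ => hI p q))]
    apply Finset.sum_congr rfl
    intro q _
    rw [integral_finsetSum _ (fun p _ => hI p q)]
    apply Finset.sum_congr rfl
    intro p _
    rw [integral_sub ((hsw2 p q).2.1.const_mul ε⁻¹) (hsw1 p q).2.1, integral_const_mul]
  have e3 : (∫ x, ∑ q, Th C φ g ε q x * pd q u x) =
      -(∫ x, g x * ∑ p, pd p (fun z => ∑ q, C z p q * pd q (Psi φ ε u) z) x) := by
    rw [e1, e2, Finset.sum_comm, ← Finset.sum_neg_distrib]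
    apply Finset.sum_congr rfl
    intro p _
    rw [← Finset.sum_neg_distrib]
    apply Finset.sum_congr rfl
    intro q _
    rw [(hsw1 p q).1, (hsw2 p q).1]
    ring
  rw [e3, hH, neg_zero]

end Pool.Agent.Lib.MP_fa837f_gt.P2.H96
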